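import Pool.Agent.MP_20b2fd_nt.H80.SpecT
import Pool.Agent.MP_20b2fd_nt.H20.W3

/-! From the three moments to the full statement. -/

set_option autoImplicit false

namespace Pool.Agent.MP_20b2fd_nt.H80

open Finset H38 H20
open scoped Real

theorem xok_mono {ι : Type} {J : Finset ι} {n : ι → ℕ} {x : ι → ℝ} {N : ℕ} {ε η η' A E : ℝ}
    (h : XOk J n x N ε η A E) (h1 : η ≤ η') (hA : 0 ≤ A) : XOk J n x N ε η' A E := by
  obtain ⟨a1, a2, a3, a4, a5⟩ := h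
  refine ⟨a1, a2, a3, a4.trans (mul_le_mul_of_nonneg_right h1 hA), fun a c b1 b2 b3 =>
    (a5 a c b1 b2 b3).trans ?_⟩
  have := Real.pi_pos
  gcongr

theorem excW_of (hC : CsS) (hX : XwS) (hG : GS) (C : ℝ) (c₀ : ℝ → ℝ) (h1 : 1 ≤ C)
    (h2 : C0OK c₀) : ExcW C c₀ := by
  intro C₀ c0
  obtain ⟨g, K, g0, K1, hG⟩ := hG C₀ c₀ c0 h2
  obtain ⟨η, η0, hC⟩ := hC C g K h1 g0 K1
  obtain ⟨B, B1, hB⟩ := h2
  obtain ⟨ε, ε0, ε1, ε2⟩ : ∃ ε : ℝ, 0 < ε ∧ ε ≤ 1 / 100 ∧ 6 * ε ≤ η :=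
    ⟨min (1 / 100) (η / 6), by positivity, min_le_left _ _,
      by linarith [min_le_right (1 / 100) (η / 6)]⟩
  obtain ⟨θ, u, κ, θ0, θ1, u0, u1, κ0, κ1, N₁, hG⟩ := hG ε ε0 ε1
  obtain ⟨N₂, hC⟩ := hC ε θ u (B + |2 * π * Real.log (2 * π)|) ε0 (by linarith) θ0 θ1 u0 u1
  obtain ⟨N₃, hX⟩ := hX ε (6 * ε) (B + |2 * π * Real.log (2 * π)|) ε0 le_rfl (by linarith)
  refine ⟨4 * η, κ, by linarith, κ0, max N₁ (max N₂ N₃), fun N S hN hp hE hS hBs => ?_⟩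
  obtain ⟨D, _, χ, β, e1, e2, e3, e4, e5, e6, e7⟩ := hE
  obtain ⟨x1, -, x3⟩ := hX N (le_of_max_le_right (le_of_max_le_right hN))
  have n1 : (1 : ℝ) ≤ N := Nat.one_le_cast.2 hp.pos
  have U1 : 1 ≤ (N : ℝ) ^ u := Real.one_le_rpow n1 u0.le
  have d1 : D ≤ N := by
    have := e4.trans (Real.rpow_le_rpow_of_exponent_le n1 κ1)
    rw [Real.rpow_one] at this
    exact_mod_cast this
  have b1 : |c₀ ((N : ℝ) ^ u)| ≤ B + |2 * π * Real.log (2 * π)| := by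
    have k1 := hB _ U1
    have k2 : ((N : ℝ) ^ u) ^ (-1 / 5 : ℝ) ≤ 1 :=
      Real.rpow_le_one_of_one_le_of_nonpos U1 (by norm_num)
    have k3 := abs_sub (c₀ ((N : ℝ) ^ u) + 2 * π * Real.log (2 * π)) (2 * π * Real.log (2 * π))
    rw [add_sub_cancel_right] at k3
    nlinarith
  have := hC N D χ S _ (AN N) _ (JX ε N) nn (xX ε N)
    (le_of_max_le_left (le_of_max_le_right hN)) hp (NeZero.pos D) d1 hS (hBs _ U1) b1 x1
    (xok_mono x3 ε2 (by linarith))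
    (hG N D χ β (le_of_max_le_left hN) hp ⟨e1, e2, e3, e4⟩ ⟨e5, e6, e7⟩)
  linarith

theorem full_of (hA : Aut2S) (hC : CsS) (hX : XwS) (hG : GS) : FullS := by
  obtain ⟨C, c₀, h1, h2, h3⟩ := hA
  exact full C c₀ ⟨h1, h3⟩ (excW_of hC hX hG C c₀ h1 h2)

end Pool.Agent.MP_20b2fd_nt.H80
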