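import Pool.Agent.MP_20b2fd_nt.H80.L1
import Pool.Agent.MP_20b2fd_nt.H38.Zb
import Pool.Agent.MP_20b2fd_nt.H38.Zl
import Pool.Agent.MP_20b2fd_nt.H38.Eu
import Pool.Agent.MP_20b2fd_nt.H38.Mer
import Pool.Agent.MP_20b2fd_nt.H38.PhZ
import Pool.Agent.MP_c5bf7b_nt.H38.Sieg

/-! The function of a real character near the point one when it has a zero there. -/

set_option autoImplicit false

namespace Pool.Agent.MP_20b2fd_nt.H80

open Complex H38 Filter Topology Metric Finset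
open DirichletCharacter (LFunction)
open Pool.Agent.MP_c5bf7b_nt.H38 (Phi Ch)

namespace LA

theorem zeta : ∃ C : ℝ, 1 ≤ C ∧ ∀ s : ℂ, ‖s‖ ≤ 1 / 2 → ‖Phi (1 : Ch 1) (1 + s) - 1‖ ≤ C * ‖s‖ := by
  have h : Continuous riemannZeta₀ := differentiable_riemannZeta₀.continuous
  obtain ⟨C, hC⟩ := (isCompact_closedBall (1 : ℂ) (1 / 2)).exists_bound_of_continuousOn
    h.continuousOn
  refine ⟨max 1 C, le_max_left _ _, fun s hs => ?_⟩
  rw [MP_c5bf7b_nt.H38.PhiA.phi_one, MP_c5bf7b_nt.H38.PhiA.triv_eq, Nat.primeFactors_one, prod_empty,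
    one_mul, riemannZeta₁, add_sub_cancel_left, add_sub_cancel_left, norm_mul, mul_comm]
  refine mul_le_mul_of_nonneg_right ((hC _ ?_).trans (le_max_right _ _)) (norm_nonneg _)
  rwa [mem_closedBall, dist_eq_norm, add_sub_cancel_left]

/-- the lemma of Schwarz -/
theorem schwarz {G : ℂ → ℂ} (hG : Differentiable ℂ G) {r E : ℝ}
    (h : ∀ s, ‖s - 1‖ ≤ r → ‖G s‖ ≤ E * ‖G 1‖) {s : ℂ} (hs : ‖s - 1‖ < r) :
    ‖G s - G 1‖ ≤ (E + 1) / r * ‖s - 1‖ * ‖G 1‖ := by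
  have := Complex.dist_le_div_mul_dist_of_mapsTo_ball (f := G) (c := 1) (R₁ := r)
    (R₂ := (E + 1) * ‖G 1‖) (z := s) hG.differentiableOn (fun w hw => by
      rw [mem_closedBall, dist_eq_norm]
      have a := h w (by rw [mem_ball, dist_eq_norm] at hw; exact hw.le)
      have b := norm_sub_le (G w) (G 1)
      linarith) (by rwa [mem_ball, dist_eq_norm])
  rw [dist_eq_norm, dist_eq_norm] at this
  exact this.trans_eq (by ring)

theorem ez_pos {q : ℕ} {χ : Ch q} (h : χ ^ 2 = 1) (z : ℝ) (hz : 2 ≤ z) :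
    (ez χ z 1).im = 0 ∧ 0 < (ez χ z 1).re := by
  have e : ez χ z 1 = ((∏ p ∈ pz z, (1 - (χ p).re / p) : ℝ) : ℂ) := by
    rw [ez, ofReal_prod]
    refine prod_congr rfl fun p _ => ?_
    push_cast
    rw [MP_c5bf7b_nt.H38.SiegA.real h, cpow_neg_one, div_eq_mul_inv]
  rw [e, ofReal_im, ofReal_re]
  refine ⟨rfl, prod_pos fun p hp => ?_⟩
  have a := (ZbA.mem_pz hz hp).1
  have b := (re_le_norm (χ p)).trans (χ.norm_le_one p)
  rw [sub_pos, div_lt_one (by linarith)]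
  linarith

theorem one_real {q : ℕ} [NeZero q] {χ : Ch q} (h : χ ^ 2 = 1) (h1 : χ ≠ 1) :
    (LFunction χ 1).im = 0 ∧ 0 ≤ (LFunction χ 1).re := by
  rw [← MP_c5bf7b_nt.H38.SiegA.lc_one h h1]
  have hc := MP_c5bf7b_nt.H38.SiegA.ra_ch h h1
  exact ⟨by simpa using hc.im_eq_zero (β := 1) (by norm_num) (by norm_num), hc.one_nonneg⟩

end LA

open LA in
theorem loc : LocS := by
  classical
  obtain ⟨a, K, a0, a1, hK, hL⟩ := logd_le phZ (zlOf phZ)
  obtain ⟨C₀, hC₀, hζ⟩ := zeta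
  obtain ⟨hE1, hE2⟩ := euOf mer
  obtain ⟨D, hD1, hM1, -, -⟩ := mer
  obtain ⟨C, hC1, hC⟩ := hE2 (2 * a) (by linarith) (by linarith)
  obtain ⟨E₁, hE₁⟩ : ∃ E, E = Real.exp (K * a) := ⟨_, rfl⟩
  obtain ⟨E₂, hE₂⟩ : ∃ E, E = Real.exp (2 * D) := ⟨_, rfl⟩
  have e1 : 1 ≤ E₁ := hE₁ ▸ Real.one_le_exp (by positivity)
  have e2 : 1 ≤ E₂ := hE₂ ▸ Real.one_le_exp (by linarith)
  have e3 : 1 ≤ E₁ * E₂ * C :=
    one_le_mul_of_one_le_of_one_le (one_le_mul_of_one_le_of_one_le e1 e2) hC1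
  have e4 : 1 ≤ 1 / a := by rw [le_div_iff₀ a0]; linarith
  obtain ⟨B, hB⟩ : ∃ B, B = C₀ + (E₁ + 1) / a + (E₂ + 1) / a + E₁ * E₂ * C / a := ⟨_, rfl⟩
  have f1 : 0 ≤ (E₁ + 1) / a := by positivity
  have f2 : 0 ≤ (E₂ + 1) / a := by positivity
  have f3 : E₁ * E₂ * C ≤ E₁ * E₂ * C / a := by
    rw [le_div_iff₀ a0]
    nlinarith
  refine ⟨a ^ 2, B, by positivity, by nlinarith, by linarith, fun s hs => (hζ s hs).trans
    (mul_le_mul_of_nonneg_right (by linarith) (norm_nonneg _)),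
    fun q _ χ β z h2 h1 h0 hβ hz hq hd => ?_⟩
  have hl := ZbA.log_ge hz
  have m1 : ∑ p ∈ pz z, Real.log p / p ≤ Real.log z + D := by
    have := (abs_le.1 (hM1 1 z le_rfl (by linarith)).1).2
    rw [div_one] at this
    exact sub_le_iff_le_add'.1 this
  have hL := hL q χ β z h2 h1 h0 hβ hz hq hd
  have hF : Differentiable ℂ (Fb χ β) := L1A.diff h1
  obtain ⟨t, ht⟩ : ∃ t, t = a / Real.log z := ⟨_, rfl⟩
  have t0 : 0 < t := by rw [ht]; positivity
  have t1 : t * Real.log z = a := by rw [ht]; field_simp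
  have d1 : 1 - β ≤ t := by
    refine le_of_mul_le_mul_right ?_ (by linarith : 0 < Real.log z)
    nlinarith
  have cF : ∀ u v : ℂ, ‖u - 1‖ ≤ t → ‖v - 1‖ ≤ t → ‖v - u‖ ≤ t →
      ‖Fb χ β v‖ ≤ E₁ * ‖Fb χ β u‖ := fun u v hu hv huv => by
    have k := ZbA.gron hF (K := K * Real.log z) u v fun τ τ0 τ1 => hL _ (by
      rw [← ht, show u + τ * (v - u) - 1 = ((1 - τ : ℝ) : ℂ) * (u - 1) + τ * (v - 1) by
        push_cast; ring]
      refine (norm_add_le _ _).trans ?_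
      rw [norm_mul, norm_mul, norm_real, norm_real, Real.norm_of_nonneg τ0,
        Real.norm_of_nonneg (by linarith)]
      nlinarith)
    rw [mul_comm, hE₁]
    refine k.trans (mul_le_mul_of_nonneg_left (Real.exp_le_exp.2 ?_) (norm_nonneg _))
    rw [← t1, mul_assoc, mul_comm t]
    gcongr
  have cE : ∀ u v : ℂ, ‖u - 1‖ ≤ t → ‖u - v‖ ≤ t → ‖ez χ z v‖ ≤ E₂ * ‖ez χ z u‖ :=
    fun u v hu huv => by
    rw [mul_comm, hE₂]
    refine ZbA.ez_cmp χ (c := a) hz a0 (by linarith) ?_ (ht ▸ huv) hD1 m1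
    have := (abs_le.1 ((abs_re_le_norm _).trans hu)).1
    rw [sub_re, one_re] at this
    linarith
  have n1 : ‖(1 : ℂ) - 1‖ ≤ t := by simpa using t0.le
  obtain ⟨v, hv⟩ : ∃ v : ℂ, v = ((1 + t : ℝ) : ℂ) := ⟨_, rfl⟩
  have n2 : ‖v - 1‖ ≤ t := by
    rw [hv, ← ofReal_one, ← ofReal_sub, norm_real, Real.norm_eq_abs, add_sub_cancel_left,
      abs_of_pos t0]
  have n3 : ‖1 - v‖ ≤ t := by rwa [norm_sub_rev]
  have v1 : v.re = 1 + 2 * a / (2 * Real.log z) := by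
    rw [hv, ofReal_re, ht, mul_div_mul_left _ _ two_ne_zero]
  have v2 : 1 < v.re := by rw [hv, ofReal_re]; linarith
  obtain ⟨s1, s2⟩ := hE1 _ χ z v hz v2
  have b1 := ZbA.ser v1 (v1 ▸ v2) (fun n => χ.norm_le_one _) s1 (hC z hz).1 (hC z hz).2
  have b2 := ZbA.ser (a := fun n => (ArithmeticFunction.moebius n : ℂ) * χ n) v1 (v1 ▸ v2)
    (fun n => by
      rw [norm_mul, norm_intCast]
      exact mul_le_one₀ (by exact_mod_cast ArithmeticFunction.abs_moebius_le_one) (norm_nonneg _)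
        (χ.norm_le_one _)) s2 (hC z hz).1 (hC z hz).2
  have v3 : ‖v - β‖ = 1 + t - β := by
    rw [hv, ← ofReal_sub, norm_real, Real.norm_of_nonneg (by linarith)]
  have v4 : ez χ z v ≠ 0 := fun e => by
    have k := cE v 1 n2 n2
    rw [e, norm_zero, mul_zero] at k
    have := (ez_pos h2 z hz).2
    linarith [re_le_norm (ez χ z 1)]
  have v5 : 0 < ‖LFunction χ v * ez χ z v‖ := norm_pos_iff.2 (mul_ne_zero
    (DirichletCharacter.LFunction_ne_zero_of_one_le_re χ (Or.inl h1) v2.le) v4)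
  rw [norm_inv, inv_le_iff_one_le_mul₀ v5] at b2
  rw [L1A.fac h0, mul_assoc, norm_mul, norm_mul, v3] at b1 b2
  have p0 : 0 ≤ ‖Fb χ β v‖ * ‖ez χ z v‖ := by positivity
  have p1 : ‖Fb χ β 1‖ * ‖ez χ z 1‖ ≤ E₁ * E₂ * (‖Fb χ β v‖ * ‖ez χ z v‖) :=
    (mul_le_mul (cF v 1 n2 n1 n3) (cE v 1 n2 n2) (norm_nonneg _) (by positivity)).trans_eq
      (by ring)
  have p2 : ‖Fb χ β v‖ * ‖ez χ z v‖ ≤ E₁ * E₂ * (‖Fb χ β 1‖ * ‖ez χ z 1‖) :=
    (mul_le_mul (cF 1 v n1 n2 n2) (cE 1 v n1 n3) (norm_nonneg _) (by positivity)).trans_eq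
      (by ring)
  have p3 : Real.log z / B ≤ ‖Fb χ β 1‖ * ‖ez χ z 1‖ := by
    have p4 : 0 ≤ ‖Fb χ β 1‖ * ‖ez χ z 1‖ := by positivity
    rw [div_le_iff₀ (by linarith)]
    have k1 : (1 + t - β) * Real.log z ≤ 1 := by nlinarith
    have k2 : Real.log z ≤ C * (‖Fb χ β v‖ * ‖ez χ z v‖) := by
      have := mul_le_mul_of_nonneg_left b2 (by linarith : 0 ≤ Real.log z)
      nlinarith [mul_le_mul_of_nonneg_left k1 (mul_nonneg (by linarith : 0 ≤ C) p0)]
    have k3 := mul_le_mul_of_nonneg_left p2 (by linarith : 0 ≤ C)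
    have k4 := mul_le_mul_of_nonneg_left (by linarith : E₁ * E₂ * C ≤ B) p4
    linarith
  have p5 : ‖Fb χ β 1‖ * ‖ez χ z 1‖ ≤ B * Real.log z := by
    have k1 : ‖Fb χ β v‖ * ‖ez χ z v‖ ≤ C / a * Real.log z := by
      refine le_of_mul_le_mul_left ?_ t0
      have : t * (C / a * Real.log z) = C := by
        rw [← t1]
        field_simp
      nlinarith
    have k2 := mul_le_mul_of_nonneg_left k1 (by positivity : 0 ≤ E₁ * E₂)
    have k3 := mul_le_mul_of_nonneg_right (by linarith : E₁ * E₂ * C / a ≤ B)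
      (by linarith : 0 ≤ Real.log z)
    have k4 : E₁ * E₂ * (C / a * Real.log z) = E₁ * E₂ * C / a * Real.log z := by ring
    linarith
  obtain ⟨r1, r2⟩ := one_real h2 h1
  rw [L1A.fac h0, ← ofReal_one, ← ofReal_sub, ofReal_one] at r1 r2
  rw [im_ofReal_mul] at r1
  rw [re_ofReal_mul] at r2
  have r3 : (Fb χ β 1).im = 0 := (mul_eq_zero.1 r1).resolve_left (by linarith)
  have r4 : 0 < (Fb χ β 1).re := by
    refine lt_of_le_of_ne (nonneg_of_mul_nonneg_right r2 (by linarith)) fun e => ?_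
    rw [show Fb χ β 1 = 0 from Complex.ext e.symm r3, norm_zero, zero_mul] at p3
    exact absurd p3 (not_le.2 (div_pos (by linarith) (by linarith)))
  refine ⟨hF, L1A.fac h0, r3, r4, (ez_pos h2 z hz).1, (ez_pos h2 z hz).2, fun s hs => ?_, p3, p5⟩
  have w1 : ‖s - 1‖ < t := by
    refine lt_of_mul_lt_mul_right ?_ (by linarith : 0 ≤ Real.log z)
    nlinarith
  have w2 : ∀ E : ℝ, (E + 1) / a ≤ B → (E + 1) / t * ‖s - 1‖ ≤ B * ‖s - 1‖ * Real.log z :=
    fun E hE => by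
    have : (E + 1) / t = (E + 1) / a * Real.log z := by
      rw [← t1]
      field_simp
    rw [this, mul_right_comm]
    gcongr
  exact ⟨(schwarz hF (fun w hw => cF 1 w n1 hw hw) w1).trans
      (mul_le_mul_of_nonneg_right (w2 _ (by linarith)) (norm_nonneg _)),
    (schwarz (ZbA.ez_diff χ hz) (fun w hw => cE 1 w n1 (by rwa [norm_sub_rev])) w1).trans
      (mul_le_mul_of_nonneg_right (w2 _ (by linarith)) (norm_nonneg _))⟩

end Pool.Agent.MP_20b2fd_nt.H80
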