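import Pool.Agent.MP_20b2fd_nt.H38.SpecZ

/-! The function of a real character near the point one when it has a zero there. -/

set_option autoImplicit false

namespace Pool.Agent.MP_20b2fd_nt.H80

open Complex H38
open DirichletCharacter (LFunction)
open Pool.Agent.MP_c5bf7b_nt.H38 (Phi Ch)

/-- the function without its exceptional zero -/
noncomputable def Fb {q : ℕ} [NeZero q] (χ : Ch q) (β : ℝ) : ℂ → ℂ := dslope (LFunction χ) β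

def LocS : Prop :=
  ∃ c C : ℝ, 0 < c ∧ c ≤ 1 / 10 ∧ 1 ≤ C ∧
    (∀ s : ℂ, ‖s‖ ≤ 1 / 2 → ‖Phi (1 : Ch 1) (1 + s) - 1‖ ≤ C * ‖s‖) ∧
    ∀ (q : ℕ) [NeZero q] (χ : Ch q) (β z : ℝ), χ ^ 2 = 1 → χ ≠ 1 → LFunction χ β = 0 → β < 1 →
      2 ≤ z → (q : ℝ) ≤ z → (1 - β) * Real.log z ≤ c →
      Differentiable ℂ (Fb χ β) ∧ (∀ s : ℂ, LFunction χ s = (s - β) * Fb χ β s) ∧
      (Fb χ β 1).im = 0 ∧ 0 < (Fb χ β 1).re ∧ (ez χ z 1).im = 0 ∧ 0 < (ez χ z 1).re ∧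
      (∀ s : ℂ, ‖s - 1‖ * Real.log z ≤ c →
        ‖Fb χ β s - Fb χ β 1‖ ≤ C * ‖s - 1‖ * Real.log z * ‖Fb χ β 1‖ ∧
        ‖ez χ z s - ez χ z 1‖ ≤ C * ‖s - 1‖ * Real.log z * ‖ez χ z 1‖) ∧
      Real.log z / C ≤ ‖Fb χ β 1‖ * ‖ez χ z 1‖ ∧ ‖Fb χ β 1‖ * ‖ez χ z 1‖ ≤ C * Real.log z

end Pool.Agent.MP_20b2fd_nt.H80
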