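import Pool.Agent.MP_20b2fd_nt.H20.SpecW

/-! The target of the blocks on the twisted polynomial. -/

set_option autoImplicit false

namespace Pool.Agent.MP_20b2fd_nt.H80

open H38 H20
open DirichletCharacter (LFunction)

/-- a zero at distance at most `C₀ / log N` from one -/
def Ze {D : ℕ} [NeZero D] (χ : DirichletCharacter ℂ D) (β C₀ : ℝ) (N : ℕ) : Prop :=
  1 - C₀ / Real.log N ≤ β ∧ β < 1 ∧ LFunction χ β = 0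

/-- the three moments in the presence of an exceptional zero -/
def GS : Prop :=
  ∀ (C₀ : ℝ) (c₀ : ℝ → ℝ), 0 < C₀ → C0OK c₀ → ∃ g K : ℝ, 0 < g ∧ 1 ≤ K ∧
    ∀ ε : ℝ, 0 < ε → ε ≤ 1 / 100 → ∃ θ u κ : ℝ, 0 < θ ∧ θ ≤ 1 / 100 ∧ 0 < u ∧ 10 * u ≤ ε ∧
      0 < κ ∧ κ ≤ 1 ∧ ∃ N₀ : ℕ, ∀ (N D : ℕ) [NeZero D] (χ : DirichletCharacter ℂ D) (β : ℝ),
        N₀ ≤ N → N.Prime → QC χ N κ → Ze χ β C₀ N →
        GOk χ (JX ε N) nn (xX ε N) N θ g K (AN N) ((N : ℝ) ^ u) (c₀ ((N : ℝ) ^ u))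

end Pool.Agent.MP_20b2fd_nt.H80
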