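import Pool.Agent.MP_20b2fd_nt.H80.FinA
import Pool.Agent.MP_20b2fd_nt.H39.Co
import Pool.Agent.MP_20b2fd_nt.F5.BL
import Pool.Agent.MP_20b2fd_nt.F5.BX
import Pool.Agent.MP_20b2fd_nt.F5.CA
import Pool.Agent.MP_20b2fd_nt.F5.CB
import Pool.Agent.MP_20b2fd_nt.F5.CU
import Pool.Agent.MP_20b2fd_nt.F5.FY1
import Pool.Agent.MP_20b2fd_nt.F5.FY2
import Pool.Agent.MP_20b2fd_nt.F5.GK
import Pool.Agent.MP_20b2fd_nt.F5.KC
import Pool.Agent.MP_20b2fd_nt.F5.KV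
import Pool.Agent.MP_20b2fd_nt.F5.PB
import Pool.Agent.MP_20b2fd_nt.F5.ZB
import Pool.Agent.MP_20b2fd_nt.F5.ZD

/-! All rows put together. -/

set_option autoImplicit false

namespace Pool.Agent.MP_20b2fd_nt.H80

open Pool.Agent.MP_20b2fd_nt

theorem ffS : F5.FFS :=
  Fin.ff F5.bxOf F5.caOf F5.kcOf F5.zbOf F5.zdOf F5.blS F5.kvOf F5.fy2Of F5.cbOf F5.gk F5.pbOf
    F5.fy1Of F5.cuOf

theorem fin : H20.FullS := Fin.full_of ffS F5.blS H39.co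

end Pool.Agent.MP_20b2fd_nt.H80
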