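import Pool.Agent.MP_20b2fd_nt.H38.All
import Pool.Agent.MP_20b2fd_nt.H38.AllX
import Pool.Agent.MP_20b2fd_nt.H96.AllB
import Pool.Agent.MP_20b2fd_nt.H39.All
import Pool.Agent.MP_20b2fd_nt.H39.Br
import Pool.Agent.MP_20b2fd_nt.H39.Gg
import Pool.Agent.MP_20b2fd_nt.H39.Ia
import Pool.Agent.MP_20b2fd_nt.H39.Jm
import Pool.Agent.MP_20b2fd_nt.H39.Mm
import Pool.Agent.MP_20b2fd_nt.H39.Pu
import Pool.Agent.MP_20b2fd_nt.H75.Ap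
import Pool.Agent.MP_20b2fd_nt.H75.G
import Pool.Agent.MP_20b2fd_nt.H75.Lo
import Pool.Agent.MP_20b2fd_nt.H75.Pr
import Pool.Agent.MP_20b2fd_nt.H75.Y
import Pool.Agent.MP_20b2fd_nt.H80.L
import Pool.Agent.MP_c5bf7b_nt.H38.Sieg
import Pool.Agent.MP_20b2fd_nt.F5.AL
import Pool.Agent.MP_20b2fd_nt.F5.AR0
import Pool.Agent.MP_20b2fd_nt.F5.AR1
import Pool.Agent.MP_20b2fd_nt.F5.AR2
import Pool.Agent.MP_20b2fd_nt.F5.AR3
import Pool.Agent.MP_20b2fd_nt.F5.CO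
import Pool.Agent.MP_20b2fd_nt.F5.DG
import Pool.Agent.MP_20b2fd_nt.F5.EY
import Pool.Agent.MP_20b2fd_nt.F5.FE
import Pool.Agent.MP_20b2fd_nt.F5.FF
import Pool.Agent.MP_20b2fd_nt.F5.FX
import Pool.Agent.MP_20b2fd_nt.F5.FY
import Pool.Agent.MP_20b2fd_nt.F5.HS
import Pool.Agent.MP_20b2fd_nt.F5.LB
import Pool.Agent.MP_20b2fd_nt.F5.ME
import Pool.Agent.MP_20b2fd_nt.F5.MK
import Pool.Agent.MP_20b2fd_nt.F5.OZ
import Pool.Agent.MP_20b2fd_nt.F5.RH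
import Pool.Agent.MP_20b2fd_nt.F5.SH
import Pool.Agent.MP_20b2fd_nt.F5.SI
import Pool.Agent.MP_20b2fd_nt.F5.TW
import Pool.Agent.MP_20b2fd_nt.F5.V
import Pool.Agent.MP_20b2fd_nt.F5.VA
import Pool.Agent.MP_20b2fd_nt.F5.ZA
import Pool.Agent.MP_20b2fd_nt.F5.ZC

/-! The blocks put together. -/

set_option autoImplicit false

namespace Pool.Agent.MP_20b2fd_nt.H80.Fin

open Pool.Agent.MP_20b2fd_nt
open H39.All

theorem lo : H75.LoS := H75.loOf H38.mer H80.loc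
theorem pr : H75.PrS := H75.prOf MP_c5bf7b_nt.H38.sieg f1S fnS lo
theorem ap : H39.ApS := fun D χ u w =>
  ⟨(H75.apS D χ u).1 w, (H75.apS D χ u).2.1, (H75.apS D χ u).2.2⟩
theorem jm : H39.JmS := H39.jmOf avS jiS f1S
theorem pu : H39.PuS := H39.puOf F5.v
theorem gg : H39.GgS := H39.ggOf F5.ar0 f1S xyS ap jm pu

theorem ms (co : H39.CoS) : H75.MS :=
  H39.ms_of (H39.mmOf F5.v F5.ar0 H38.All.dl f1S eyS ap jm (H39.iaOf f1S) co pu gg)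

theorem me : F5.MES := F5.meOf F5.v
theorem lb : F5.LBS := F5.lbOf H38.phZ
theorem dg : F5.DGS := F5.dgOf F5.v F5.sh me lb F5.ar0 (F5.ar1Of F5.ar3)

theorem ff (bx : F5.BXOf) (ca : F5.CAOf) (kc : F5.KCOf) (zb : F5.ZBOf) (zd : F5.ZDOf)
    (bl : F5.BLS) (kv : F5.KVOf) (fy2 : F5.FY2Of) (cb : F5.CBOf) (gk : F5.GKS) (pb : F5.PBOf)
    (fy1 : F5.FY1Of) (cu : F5.CUOf) : F5.FFS :=
  F5.ffOf H38.All.xg H96.All.kmS (F5.eyOf F5.v F5.sh me lb)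
    (F5.fxOf H38.All.xg H96.All.kmS dg (pb F5.v))
    (F5.fyOf
      (fy1 F5.v H38.All.ker H38.mel1 H96.All.kmS
        (F5.ozOf (F5.coOf (ca H38.bbS (bx (kc H38.kl)) F5.va gk F5.hs)
          (cb gk (F5.alOf F5.rh F5.hs) F5.si)))
        (zb F5.v F5.ar3 F5.zcS F5.feS F5.mk (F5.zaOf F5.v))
        (zd F5.v lb F5.ar0 F5.feS H96.All.kmS H96.All.kbS F5.mk) dg (pb F5.v) (cu H38.mel1))
      (fy2 F5.v lb F5.ar0 (kv F5.v F5.sh me lb F5.ar0 bl (F5.ar2Of bl))))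
    (F5.twOf F5.v)

theorem full_of (hF : F5.FFS) (bl : F5.BLS) (co : H39.CoS) : H20.FullS :=
  H38.All.full_of (H75.gOf H38.fmk H20.xwS hF (ms co) (H75.yOf bl f1S yyS) pr)

end Pool.Agent.MP_20b2fd_nt.H80.Fin
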