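import Pool.Agent.MP_20b2fd_nt.H80.SpecL
import Pool.Agent.MP_20b2fd_nt.H38.Page
import Pool.Agent.MP_20b2fd_nt.H38.Zd

/-! The logarithmic derivative of the function without its exceptional zero. -/

set_option autoImplicit false

namespace Pool.Agent.MP_20b2fd_nt.H80

open Complex H38 Filter Topology
open DirichletCharacter (LFunction)
open Pool.Agent.MP_c5bf7b_nt.H38 (Phi Ch)

namespace L1A

variable {q : ℕ} [NeZero q] {χ : Ch q} {β : ℝ}

theorem diff (h1 : χ ≠ 1) : Differentiable ℂ (Fb χ β) :=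
  differentiableOn_univ.1 ((differentiableOn_dslope univ_mem).2
    (DirichletCharacter.differentiable_LFunction h1).differentiableOn)

theorem fac (h0 : LFunction χ β = 0) (s : ℂ) : LFunction χ s = (s - β) * Fb χ β s := by
  have := sub_smul_dslope (LFunction χ) (β : ℂ) s
  rw [h0, sub_zero, smul_eq_mul] at this
  exact this.symm

theorem logd (h1 : χ ≠ 1) (h0 : LFunction χ β = 0) {s : ℂ} (hs : LFunction χ s ≠ 0) :
    deriv (Fb χ β) s / Fb χ β s = deriv (LFunction χ) s / LFunction χ s - (s - β)⁻¹ := by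
  have e : LFunction χ = fun s => (s - β) * Fb χ β s := funext (fac h0)
  have d : HasDerivAt (fun s : ℂ => (s - β) * Fb χ β s)
      (1 * Fb χ β s + (s - β) * deriv (Fb χ β) s) s :=
    ((hasDerivAt_id s).sub_const _).mul (diff h1 s).hasDerivAt
  rw [← e] at d
  rw [fac h0 s] at hs
  have a := left_ne_zero_of_mul hs
  have b := right_ne_zero_of_mul hs
  rw [d.deriv, fac h0 s]
  field_simp
  ring

theorem one_le (g : ℂ → ℂ) (Z : Multiset ℂ) (h : ∀ ρ ∈ Z, 0 ≤ (g ρ).re) {ρ : ℂ} (hρ : ρ ∈ Z) :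
    (g ρ).re ≤ ((Z.map g).sum).re := by
  obtain ⟨U, rfl⟩ := Multiset.exists_cons_of_mem hρ
  rw [Multiset.map_cons, Multiset.sum_cons, add_re]
  linarith [ZdA.sum_re g U fun x hx => h x (Multiset.mem_cons_of_mem hx)]

theorem far {w : ℂ} {t M : ℝ} (ht : 0 < t) (h1 : t ≤ w.re) (h2 : (w⁻¹).re ≤ M)
    (h3 : 16 * t * M ≤ 1) : 4 * t ≤ ‖w‖ := by
  have a : 0 < ‖w‖ := lt_of_lt_of_le (by linarith) (re_le_norm w)
  rw [inv_re, normSq_eq_norm_sq, div_le_iff₀ (pow_pos a 2)] at h2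
  by_contra h
  push Not at h
  have b : ‖w‖ ^ 2 < 16 * t ^ 2 := by nlinarith
  have c : 0 < M := by nlinarith [pow_pos a 2]
  nlinarith [mul_lt_mul_of_pos_left b c]

theorem near {w u : ℂ} {t : ℝ} (ht : 0 < t) (h1 : t ≤ w.re) (h2 : 4 * t ≤ ‖w‖)
    (h3 : ‖u - w‖ ≤ 2 * t) : ‖u⁻¹ - w⁻¹‖ ≤ 4 * (w⁻¹).re := by
  have a : 0 < ‖w‖ := by linarith
  have b : ‖w‖ / 2 ≤ ‖u‖ := by
    have := norm_sub_norm_le w u
    rw [norm_sub_rev] at this
    linarith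
  have c : 0 < ‖u‖ := by linarith
  have e : u⁻¹ - w⁻¹ = -(u - w) / (u * w) := by
    have b1 := norm_pos_iff.1 a
    have b2 := norm_pos_iff.1 c
    field_simp
    ring
  rw [e, norm_div, norm_neg, norm_mul, inv_re, normSq_eq_norm_sq, ← mul_div_assoc,
    div_le_div_iff₀ (mul_pos c a) (pow_pos a 2)]
  have d1 : ‖u - w‖ * ‖w‖ ≤ 4 * w.re * ‖u‖ := by nlinarith
  nlinarith

end L1A

open L1A in
theorem logd_le (hP : PhZ) (hZ : ZlS) : ∃ a K : ℝ, 0 < a ∧ a ≤ 1 / 80 ∧ 1 ≤ K ∧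
    ∀ (q : ℕ) [NeZero q] (χ : Ch q) (β z : ℝ), χ ^ 2 = 1 → χ ≠ 1 → LFunction χ β = 0 → β < 1 →
      2 ≤ z → (q : ℝ) ≤ z → (1 - β) * Real.log z ≤ a ^ 2 → ∀ s : ℂ, ‖s - 1‖ ≤ a / Real.log z →
      ‖deriv (Fb χ β) s‖ ≤ K * Real.log z * ‖Fb χ β s‖ := by
  obtain ⟨K₁, hK₁, hk⟩ := PageA.key hP hZ
  obtain ⟨K₂, hK₂, hR⟩ := ZdA.right hP hZ
  obtain ⟨_, -, hP⟩ := hP
  obtain ⟨K, hK, hZ⟩ := hZ
  obtain ⟨a, ha⟩ : ∃ a : ℝ, a = 1 / (16 * (1 + 2 * K₁ + 2 * K)) := ⟨_, rfl⟩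
  have a0 : 0 < a := by rw [ha]; positivity
  have a1 : a ≤ 1 / 80 := ha ▸ one_div_le_one_div_of_le (by norm_num) (by linarith)
  have a2 : 16 * a * (1 + 2 * K₁ + 2 * K) = 1 := by rw [ha]; field_simp
  have a3 : 0 < 3 / a := by positivity
  refine ⟨a, 4 * K + 4 * (1 + 2 * K₁ + 2 * K) + 3 / a + K₂, a0, a1, by linarith,
    fun q _ χ β z h2 h1 h0 hβ hz hq hd => ?_⟩
  obtain ⟨l, hl⟩ : ∃ l, l = Real.log z := ⟨_, rfl⟩
  have l1 : Real.log 2 ≤ l := hl ▸ Real.log_le_log two_pos hz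
  have l2 : 1 / 2 < l := by linarith [Real.log_two_gt_d9]
  have q0 : (0 : ℝ) < q := Nat.cast_pos.2 (NeZero.pos q)
  have l3 : Real.log (q * 2) ≤ 2 * l := by
    rw [Real.log_mul q0.ne' two_ne_zero]
    linarith [Real.log_le_log q0 hq]
  rw [← hl] at hd ⊢
  obtain ⟨t, ht⟩ : ∃ t, t = a / l := ⟨_, rfl⟩
  have t0 : 0 < t := by rw [ht]; positivity
  have t1 : t * l = a := by rw [ht]; field_simp
  have t2 : t ≤ 1 / 40 := by nlinarith
  have d1 : 1 - β ≤ a * t := by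
    refine le_of_mul_le_mul_right ?_ (by linarith : 0 < l)
    rw [mul_assoc, t1]
    nlinarith
  have d2 : 1 - β < t := by nlinarith
  rw [← ht]
  have eP : Phi χ = LFunction χ := by rw [Phi, if_neg h1]
  obtain ⟨Z, z1, z2, z3⟩ := hZ q χ 0
  rw [eP] at z1 z2 z3
  rw [abs_zero, zero_add] at z3
  have nr : ∀ s : ℂ, ‖s - 1‖ ≤ t → ‖s - (2 + (0 : ℝ) * I)‖ < 5 / 4 := fun s hs => by
    have := norm_sub_le (s - 1) 1
    rw [norm_one] at this
    rw [show s - (2 + (0 : ℝ) * I) = s - 1 - 1 by push_cast; ring]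
    linarith
  have nβ : ‖(β : ℂ) - 1‖ < t := by
    rw [← ofReal_one, ← ofReal_sub, norm_real, Real.norm_eq_abs, abs_lt]
    constructor <;> linarith
  obtain ⟨U, rfl⟩ := Multiset.exists_cons_of_mem (z2 β (nr _ nβ.le) h0)
  have s1 : 1 < 1 + t := by linarith
  have s2 : 1 + t ≤ 2 := by linarith
  have nσ : ‖((1 + t : ℝ) : ℂ) - 1‖ ≤ t := by
    rw [← ofReal_one, ← ofReal_sub, norm_real, Real.norm_eq_abs, add_sub_cancel_left,
      abs_of_pos t0]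
  have pσ : LFunction χ (1 + t : ℝ) ≠ 0 := eP ▸ (hP q χ).2.1 _ (by simpa using t0.le)
  have k0 := hk q 1 _ ∅ s1 s2 (by simp)
  rw [if_pos rfl, Finset.sum_empty, add_sub_cancel_left] at k0
  have k1 := PageA.pos2 h2 s1
  have k2 := congrArg re ((hP q χ).2.2.2.2.1 (1 + t : ℝ) (by simpa using t0))
  rw [if_neg h1, sub_zero, neg_re, eP] at k2
  have k3 := z3 _ (nr _ nσ) pσ
  rw [Multiset.map_cons, Multiset.sum_cons] at k3
  have k4 := (abs_le.1 ((abs_re_le_norm _).trans k3)).1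
  have k5 : ((((1 + t : ℝ) : ℂ) - β)⁻¹) = ((1 / (1 + t - β) : ℝ) : ℂ) := by
    push_cast
    rw [one_div]
  rw [k5, sub_re, add_re, ofReal_re] at k4
  have k6 : 1 / t - 1 / (1 + t - β) ≤ l := by
    rw [div_sub_div _ _ t0.ne' (by linarith), div_le_iff₀ (mul_pos t0 (by linarith))]
    have : t * t ≤ t * (1 + t - β) := mul_le_mul_of_nonneg_left (by linarith) t0.le
    nlinarith
  obtain ⟨M, hM⟩ : ∃ M, M = (1 + 2 * K₁ + 2 * K) * l := ⟨_, rfl⟩
  have m1 : ((U.map fun ρ => (((1 + t : ℝ) : ℂ) - ρ)⁻¹).sum).re ≤ M := by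
    have b1 := mul_le_mul_of_nonneg_left l3 (zero_le_one.trans hK)
    have b2 := mul_le_mul_of_nonneg_left l3 (zero_le_one.trans hK₁)
    unfold PageA.LL at k0 k1
    linarith
  have m2 : 16 * t * M ≤ 1 := by
    refine le_of_eq (Eq.trans ?_ a2)
    rw [hM, ← t1]
    ring
  have u1 : ∀ ρ ∈ U, t ≤ (((1 + t : ℝ) : ℂ) - ρ).re := fun ρ hρ => by
    have := (z1 ρ (Multiset.mem_cons_of_mem hρ)).2.1
    rw [sub_re, ofReal_re]
    linarith
  have u2 : ∀ ρ ∈ U, 4 * t ≤ ‖((1 + t : ℝ) : ℂ) - ρ‖ := fun ρ hρ =>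
    far t0 (u1 ρ hρ) ((one_le (fun ρ => (((1 + t : ℝ) : ℂ) - ρ)⁻¹) U (fun x hx => by
      rw [inv_re]
      exact div_nonneg (t0.le.trans (u1 x hx)) (normSq_nonneg _)) hρ).trans m1) m2
  have u3 : ∀ s : ℂ, ‖s - 1‖ ≤ t → ‖s - ((1 + t : ℝ) : ℂ)‖ ≤ 2 * t := fun s hs => by
    have := norm_sub_le_norm_sub_add_norm_sub s 1 ((1 + t : ℝ) : ℂ)
    rw [norm_sub_rev 1] at this
    linarith
  have k7 := hR q χ (1 + t : ℝ) (by simpa using t0) (by simpa using s2)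
  rw [eP, ofReal_re, add_sub_cancel_left] at k7
  have k8 : ‖(((1 + t : ℝ) : ℂ) - β)⁻¹‖ ≤ 1 / t := by
    rw [k5, norm_real, Real.norm_of_nonneg (one_div_nonneg.2 (by linarith))]
    exact one_div_le_one_div_of_le t0 (by linarith)
  have k9 : 2 / t + 1 / t = 3 / a * l := by
    rw [← t1]
    field_simp
    norm_num
  have main : ∀ s : ℂ, ‖s - 1‖ ≤ t → s ≠ β → ‖deriv (Fb χ β) s‖ ≤
      (4 * K + 4 * (1 + 2 * K₁ + 2 * K) + 3 / a + K₂) * l * ‖Fb χ β s‖ := fun s hs hne => by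
    have p1 : LFunction χ s ≠ 0 := fun e => by
      rcases Multiset.mem_cons.1 (z2 s (nr s hs) e) with e' | e'
      · exact hne e'
      · have b1 := u2 s e'
        have b2 := u3 s hs
        rw [norm_sub_rev] at b2
        linarith
    have p2 : Fb χ β s ≠ 0 := fun e => p1 (by rw [fac h0, e, mul_zero])
    have b1 := z3 s (nr s hs) p1
    rw [Multiset.map_cons, Multiset.sum_cons, ← sub_sub, ← logd h1 h0 p1] at b1
    have b2 := ZdA.sum_diff (fun ρ => (s - ρ)⁻¹) (fun ρ => (((1 + t : ℝ) : ℂ) - ρ)⁻¹) U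
      fun ρ hρ => near t0 (u1 ρ hρ) (u2 ρ hρ) (by rw [sub_sub_sub_cancel_right]; exact u3 s hs)
    rw [← div_le_iff₀ (norm_pos_iff.2 p2), ← norm_div]
    set D := deriv (Fb χ β) s / Fb χ β s
    set D1 := deriv (LFunction χ) (1 + t : ℝ) / LFunction χ (1 + t : ℝ)
    set S := (U.map fun ρ => (s - ρ)⁻¹).sum
    set S1 := (U.map fun ρ => (((1 + t : ℝ) : ℂ) - ρ)⁻¹).sum
    set R := (((1 + t : ℝ) : ℂ) - β)⁻¹
    have b3 : ‖S1‖ ≤ ‖D1‖ + ‖D1 - (R + S1)‖ + ‖R‖ := by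
      have c1 := norm_sub_le (D1 - (D1 - (R + S1))) R
      have c2 := norm_sub_le D1 (D1 - (R + S1))
      rw [show D1 - (D1 - (R + S1)) - R = S1 by ring] at c1
      linarith
    have b4 : ‖D‖ ≤ ‖D - S‖ + ‖S - S1‖ + ‖S1‖ := by
      have := norm_add₃_le (a := D - S) (b := S - S1) (c := S1)
      rwa [show D - S + (S - S1) + S1 = D by ring] at this
    have b5 := mul_le_mul_of_nonneg_left l3 (zero_le_one.trans hK)
    have b6 := mul_le_mul_of_nonneg_left l1 (zero_le_one.trans hK₂)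
    linarith
  intro s hs
  rcases eq_or_ne s β with rfl | hne
  · have c1 : Continuous (Fb χ β) := (diff h1).continuous
    have c2 : Continuous (deriv (Fb χ β)) := (diff h1).contDiff.continuous_deriv le_rfl
    refine le_of_tendsto_of_tendsto (b := 𝓝[≠] (β : ℂ))
      ((c2.norm.tendsto _).mono_left nhdsWithin_le_nhds)
      (((c1.norm.const_mul _).tendsto _).mono_left nhdsWithin_le_nhds) ?_
    have c3 : ∀ᶠ s in 𝓝 (β : ℂ), ‖s - 1‖ < t :=
      (isOpen_lt (by fun_prop) continuous_const).mem_nhds nβ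
    filter_upwards [self_mem_nhdsWithin, mem_nhdsWithin_of_mem_nhds c3] with s s3 s4
    exact main s s4.le s3
  · exact main s hs hne

end Pool.Agent.MP_20b2fd_nt.H80
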